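import Mathlib

/-!
# Greedy pairings in graphs of bounded non-degree

`nn H x` = the non-neighbours of `x` (other than `x`). If all of them have at most `d` elements then
* a clique `I` together with pairs of the remaining vertices gives pairwise adjacent branch sets;
* between two disjoint sets of size `p` there are `p - d - d^2` edges, pairwise joined by edges
  between the two sets.
-/

set_option autoImplicit false

namespace Pool.Agent.AS52.Gr76

open Finset

variable {W : Type*} [Fintype W] [DecidableEq W]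

open Classical in
/-- the non-neighbours of `x` other than `x` -/
noncomputable def nn (H : SimpleGraph W) (x : W) : Finset W :=
  univ.filter fun y => y ≠ x ∧ ¬ H.Adj x y

lemma mem_nn {H : SimpleGraph W} {x y : W} : y ∈ nn H x ↔ y ≠ x ∧ ¬ H.Adj x y := by
  classical
  simp [nn]

lemma nn_comm {H : SimpleGraph W} {x y : W} : y ∈ nn H x ↔ x ∈ nn H y := by
  rw [mem_nn, mem_nn, H.adj_comm, ne_comm]

/-- a set of pairs (single vertices or edges of `H`) with disjoint supports, any two of them joined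
by an edge of `H` -/
structure PC (H : SimpleGraph W) (S : Finset (W × W)) : Prop where
  conn : ∀ e ∈ S, e.1 = e.2 ∨ H.Adj e.1 e.2
  disj : ∀ e ∈ S, ∀ e' ∈ S, e ≠ e' → e.1 ≠ e'.1 ∧ e.1 ≠ e'.2 ∧ e.2 ≠ e'.1 ∧ e.2 ≠ e'.2
  join : ∀ e ∈ S, ∀ e' ∈ S, e ≠ e' → H.Adj e.1 e'.1 ∨ H.Adj e.1 e'.2 ∨ H.Adj e.2 e'.1 ∨
    H.Adj e.2 e'.2

lemma PC.mono {H : SimpleGraph W} {S S' : Finset (W × W)} (h : PC H S) (hs : S' ⊆ S) : PC H S' :=
  ⟨fun e he => h.conn e (hs he), fun e he e' he' => h.disj e (hs he) e' (hs he'),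
    fun e he e' he' => h.join e (hs he) e' (hs he')⟩

/-- indexed form -/
theorem PC.fin {H : SimpleGraph W} {S : Finset (W × W)} (hS : PC H S) (h : ℕ) (hh : h ≤ S.card) :
    ∃ f g : Fin h → W, (∀ i, f i = g i ∨ H.Adj (f i) (g i)) ∧
      (∀ i j, i ≠ j → f i ≠ f j ∧ f i ≠ g j ∧ g i ≠ f j ∧ g i ≠ g j) ∧
      ∀ i j, i ≠ j → H.Adj (f i) (f j) ∨ H.Adj (f i) (g j) ∨ H.Adj (g i) (f j) ∨
        H.Adj (g i) (g j) := by
  obtain ⟨S', hS', hc⟩ := exists_subset_card_eq hh
  have hP := hS.mono hS'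
  let e := (S'.equivFinOfCardEq hc).symm
  refine ⟨fun i => (e i).1.1, fun i => (e i).1.2, fun i => hP.conn _ (e i).2,
    fun i j hij => hP.disj _ (e i).2 _ (e j).2 ?_, fun i j hij => hP.join _ (e i).2 _ (e j).2 ?_⟩
  · exact fun h' => hij (e.injective (Subtype.ext h'))
  · exact fun h' => hij (e.injective (Subtype.ext h'))

/-- pairs `{x, y}` in `R`, adjacent, without common non-neighbour -/
theorem pairs (H : SimpleGraph W) (d : ℕ) (hd : ∀ x, (nn H x).card ≤ d) :
    ∀ (N : ℕ) (R : Finset W), R.card = N → ∃ S : Finset (W × W),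
      (∀ e ∈ S, e.1 ∈ R ∧ e.2 ∈ R ∧ H.Adj e.1 e.2 ∧ ∀ w, w ≠ e.1 → w ≠ e.2 →
        H.Adj e.1 w ∨ H.Adj e.2 w) ∧
      (∀ e ∈ S, ∀ e' ∈ S, e ≠ e' → e.1 ≠ e'.1 ∧ e.1 ≠ e'.2 ∧ e.2 ≠ e'.1 ∧ e.2 ≠ e'.2) ∧
      R.card ≤ 2 * S.card + (d * d + d + 1) := by
  intro N
  induction N using Nat.strong_induction_on with
  | _ N ih =>
    intro R hR
    by_cases hsm : R.card ≤ d * d + d + 1
    · exact ⟨∅, by simp, by simp, by simpa using hsm⟩
    push Not at hsm
    obtain ⟨x, hx⟩ : R.Nonempty := card_pos.1 (by omega)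
    let F : Finset W := insert x (nn H x ∪ (nn H x).biUnion (nn H))
    have hF : F.card ≤ d * d + d + 1 := by
      refine (card_insert_le _ _).trans ?_
      have h1 := card_union_le (nn H x) ((nn H x).biUnion (nn H))
      have h2 : ((nn H x).biUnion (nn H)).card ≤ (nn H x).card * d :=
        card_biUnion_le_card_mul _ _ _ fun w _ => hd w
      have h3 : (nn H x).card * d ≤ d * d := Nat.mul_le_mul_right _ (hd x)
      have h4 := hd x
      omega
    obtain ⟨y, hy, hyF⟩ : ∃ y ∈ R, y ∉ F := by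
      by_contra hcon
      push Not at hcon
      have := card_le_card (show R ⊆ F from fun y hy => hcon y hy)
      omega
    have hyx : y ≠ x := fun h => hyF (by rw [h]; exact mem_insert_self _ _)
    have hyn : y ∉ nn H x := fun h => hyF (mem_insert_of_mem (mem_union_left _ h))
    have hyb : ∀ w ∈ nn H x, y ∉ nn H w := fun w hw h =>
      hyF (mem_insert_of_mem (mem_union_right _ (mem_biUnion.2 ⟨w, hw, h⟩)))
    have hadj : H.Adj x y := by
      by_contra h
      exact hyn (mem_nn.2 ⟨hyx, h⟩)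
    have hcomm : ∀ w, w ≠ x → w ≠ y → H.Adj x w ∨ H.Adj y w := by
      intro w hwx hwy
      by_contra hcon
      push Not at hcon
      refine hyb w (mem_nn.2 ⟨hwx, hcon.1⟩) ?_
      rw [nn_comm]
      exact mem_nn.2 ⟨hwy, hcon.2⟩
    have hcard : ((R.erase x).erase y).card + 2 = R.card := by
      rw [card_erase_of_mem (mem_erase.2 ⟨hyx, hy⟩), card_erase_of_mem hx]
      omega
    obtain ⟨S, hS1, hS2, hS3⟩ := ih _ (by omega) ((R.erase x).erase y) rfl
    have hnot : ∀ e ∈ S, x ≠ e.1 ∧ x ≠ e.2 ∧ y ≠ e.1 ∧ y ≠ e.2 := by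
      intro e he
      obtain ⟨h1, h2, -, -⟩ := hS1 e he
      rw [mem_erase, mem_erase] at h1 h2
      exact ⟨h1.2.1.symm, h2.2.1.symm, h1.1.symm, h2.1.symm⟩
    have hxy : (x, y) ∉ S := fun h => (hnot _ h).1 rfl
    refine ⟨insert (x, y) S, ?_, ?_, ?_⟩
    · intro e he
      rcases mem_insert.1 he with rfl | he
      · exact ⟨hx, hy, hadj, hcomm⟩
      · obtain ⟨h1, h2, h3, h4⟩ := hS1 e he
        exact ⟨(mem_erase.1 (mem_erase.1 h1).2).2, (mem_erase.1 (mem_erase.1 h2).2).2, h3, h4⟩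
    · intro e he e' he' hne
      rcases mem_insert.1 he with rfl | he
      · rcases mem_insert.1 he' with rfl | he'
        · exact absurd rfl hne
        · exact hnot e' he'
      · rcases mem_insert.1 he' with rfl | he'
        · obtain ⟨h1, h2, h3, h4⟩ := hnot e he
          exact ⟨h1.symm, h3.symm, h2.symm, h4.symm⟩
        · exact hS2 e he e' he' hne
    · rw [card_insert_of_notMem hxy]
      omega

/-- CASE A. A clique `I` in a graph of non-degree at most `d`: there are `h` pairwise adjacent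
disjoint branch sets if `2 h + d^2 + d + 1 ≤ |W| + |I|`. -/
theorem caseA (H : SimpleGraph W) (d : ℕ) (hd : ∀ x, (nn H x).card ≤ d) (I : Finset W)
    (hI : H.IsClique (I : Set W)) (h : ℕ)
    (hh : 2 * h + (d * d + d + 1) ≤ Fintype.card W + I.card) :
    ∃ S : Finset (W × W), PC H S ∧ h ≤ S.card := by
  obtain ⟨S, hS1, hS2, hS3⟩ := pairs H d hd _ (univ \ I) rfl
  have hnI : ∀ e ∈ S, e.1 ∉ I ∧ e.2 ∉ I := fun e he =>
    ⟨(mem_sdiff.1 (hS1 e he).1).2, (mem_sdiff.1 (hS1 e he).2.1).2⟩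
  let J : Finset (W × W) := I.image fun x => (x, x)
  have hJ : J.card = I.card := card_image_of_injective _ fun x y hxy => (Prod.mk.inj hxy).1
  have hmJ : ∀ e ∈ J, e.1 ∈ I ∧ e.1 = e.2 := by
    intro e he
    obtain ⟨x, hx, rfl⟩ := mem_image.1 he
    exact ⟨hx, rfl⟩
  have hdJ : Disjoint J S := by
    rw [disjoint_left]
    intro e he he'
    exact (hnI e he').1 (hmJ e he).1
  refine ⟨J ∪ S, ⟨?_, ?_, ?_⟩, ?_⟩
  · intro e he
    rcases mem_union.1 he with he | he
    · exact Or.inl (hmJ e he).2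
    · exact Or.inr (hS1 e he).2.2.1
  · intro e he e' he' hne
    rcases mem_union.1 he with he | he <;> rcases mem_union.1 he' with he' | he'
    · obtain ⟨h1, h2⟩ := hmJ e he
      obtain ⟨h3, h4⟩ := hmJ e' he'
      have h5 : e.1 ≠ e'.1 := fun h => hne (Prod.ext h (by rw [← h2, ← h4, h]))
      exact ⟨h5, h4 ▸ h5, h2 ▸ h5, h2 ▸ h4 ▸ h5⟩
    · obtain ⟨h1, h2⟩ := hmJ e he
      obtain ⟨h3, h4⟩ := hnI e' he'
      exact ⟨fun h => h3 (h ▸ h1), fun h => h4 (h ▸ h1), fun h => h3 (h ▸ h2 ▸ h1),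
        fun h => h4 (h ▸ h2 ▸ h1)⟩
    · obtain ⟨h1, h2⟩ := hmJ e' he'
      obtain ⟨h3, h4⟩ := hnI e he
      exact ⟨fun h => h3 (h ▸ h1), fun h => h3 (h ▸ h2 ▸ h1), fun h => h4 (h ▸ h1),
        fun h => h4 (h ▸ h2 ▸ h1)⟩
    · exact hS2 e he e' he' hne
  · intro e he e' he' hne
    rcases mem_union.1 he with he | he
    · rcases mem_union.1 he' with he' | he'
      · obtain ⟨h1, h2⟩ := hmJ e he
        obtain ⟨h3, h4⟩ := hmJ e' he'
        have h5 : e.1 ≠ e'.1 := fun h => hne (Prod.ext h (by rw [← h2, ← h4, h]))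
        exact Or.inl (hI (mem_coe.2 h1) (mem_coe.2 h3) h5)
      · obtain ⟨h1, h2⟩ := hmJ e he
        obtain ⟨h3, h4⟩ := hnI e' he'
        rcases (hS1 e' he').2.2.2 e.1 (fun h => h3 (h ▸ h1)) (fun h => h4 (h ▸ h1)) with h | h
        · exact Or.inl h.symm
        · exact Or.inr (Or.inl h.symm)
    · have hne' : e'.1 ≠ e.1 ∧ e'.1 ≠ e.2 := by
        rcases mem_union.1 he' with he' | he'
        · obtain ⟨h1, h2⟩ := hmJ e' he'
          obtain ⟨h3, h4⟩ := hnI e he
          exact ⟨fun h => h3 (h ▸ h1), fun h => h4 (h ▸ h1)⟩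
        · obtain ⟨h1, h2, h3, h4⟩ := hS2 e he e' he' hne
          exact ⟨h1.symm, h3.symm⟩
      rcases (hS1 e he).2.2.2 e'.1 hne'.1 hne'.2 with h | h
      · exact Or.inl h
      · exact Or.inr (Or.inr (Or.inl h))
  · rw [card_union_of_disjoint hdJ, hJ]
    have h1 : (univ \ I).card + I.card = Fintype.card W := by
      rw [card_sdiff_of_subset (subset_univ I), card_univ]
      have := card_le_univ I
      omega
    omega

/-- the edges of `H` between `X` and `Y` -/
def bip (H : SimpleGraph W) (X Y : Finset W) : SimpleGraph W where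
  Adj u v := H.Adj u v ∧ ((u ∈ X ∧ v ∈ Y) ∨ (u ∈ Y ∧ v ∈ X))
  symm := ⟨fun u v h => ⟨h.1.symm, h.2.elim (fun h => Or.inr ⟨h.2, h.1⟩) fun h => Or.inl ⟨h.2, h.1⟩⟩⟩
  loopless := ⟨fun u h => H.loopless.irrefl u h.1⟩

/-- CASE B. Between two disjoint sets with `p` elements there are `p - d - d^2` pairwise joined
edges. -/
theorem caseB (H : SimpleGraph W) (d : ℕ) (hd : ∀ x, (nn H x).card ≤ d) (X Y : Finset W)
    (hXY : Disjoint X Y) (p : ℕ) (hX : p ≤ X.card) (hY : p ≤ Y.card) (h : ℕ)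
    (hh : h + (d * d + d) ≤ p) :
    ∃ S : Finset (W × W), PC (bip H X Y) S ∧ h ≤ S.card := by
  suffices hs : ∀ m, m + (d * d + d) ≤ p → ∃ S : Finset (W × W), S.card = m ∧
      (∀ e ∈ S, e.1 ∈ X ∧ e.2 ∈ Y ∧ H.Adj e.1 e.2) ∧
      (∀ e ∈ S, ∀ e' ∈ S, e ≠ e' → e.1 ≠ e'.1 ∧ e.2 ≠ e'.2 ∧
        (H.Adj e.1 e'.2 ∨ H.Adj e'.1 e.2)) by
    obtain ⟨S, hc, h1, h2⟩ := hs h hh
    have hne : ∀ e ∈ S, ∀ e' ∈ S, e.1 ≠ e'.2 := fun e he e' he' h =>
      disjoint_left.1 hXY (h1 e he).1 (h ▸ (h1 e' he').2.1)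
    refine ⟨S, ⟨fun e he => Or.inr ⟨(h1 e he).2.2, Or.inl ⟨(h1 e he).1, (h1 e he).2.1⟩⟩,
      fun e he e' he' hee => ⟨(h2 e he e' he' hee).1, hne e he e' he',
        (hne e' he' e he).symm, (h2 e he e' he' hee).2.1⟩, ?_⟩, hc.ge⟩
    intro e he e' he' hee
    rcases (h2 e he e' he' hee).2.2 with h3 | h3
    · exact Or.inr (Or.inl ⟨h3, Or.inl ⟨(h1 e he).1, (h1 e' he').2.1⟩⟩)
    · exact Or.inr (Or.inr (Or.inl ⟨h3.symm, Or.inr ⟨(h1 e he).2.1, (h1 e' he').1⟩⟩))
  intro m
  induction m with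
  | zero => intro _; exact ⟨∅, by simp, by simp, by simp⟩
  | succ m ih =>
    intro hm
    obtain ⟨S, hc, h1, h2⟩ := ih (by omega)
    obtain ⟨x, hx, hxS⟩ : ∃ x ∈ X, x ∉ S.image Prod.fst := by
      by_contra hcon
      push Not at hcon
      have h3 := card_le_card (show X ⊆ S.image Prod.fst from fun y hy => hcon y hy)
      have h4 := card_image_le (s := S) (f := Prod.fst)
      omega
    let T := S.filter fun e => e.2 ∈ nn H x
    let F : Finset W := nn H x ∪ (S.image Prod.snd ∪ T.biUnion fun e => nn H e.1)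
    have hT : T.card ≤ d := by
      refine le_trans ?_ (hd x)
      refine card_le_card_of_injOn Prod.snd (fun e he => (mem_filter.1 he).2) ?_
      intro e he e' he' hee
      by_contra hne
      exact (h2 e (mem_filter.1 he).1 e' (mem_filter.1 he').1 hne).2.1 hee
    have hF : F.card ≤ m + (d * d + d) := by
      have h3 := card_union_le (nn H x) (S.image Prod.snd ∪ T.biUnion fun e => nn H e.1)
      have h4 := card_union_le (S.image Prod.snd) (T.biUnion fun e => nn H e.1)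
      have h5 := card_image_le (s := S) (f := Prod.snd)
      have h6 : (T.biUnion fun e => nn H e.1).card ≤ T.card * d :=
        card_biUnion_le_card_mul _ _ _ fun e _ => hd e.1
      have h7 : T.card * d ≤ d * d := Nat.mul_le_mul_right _ hT
      have h8 := hd x
      have h9 : F.card ≤ (nn H x).card + (S.image Prod.snd ∪ T.biUnion fun e => nn H e.1).card := h3
      omega
    obtain ⟨y, hy, hyF⟩ : ∃ y ∈ Y, y ∉ F := by
      by_contra hcon
      push Not at hcon
      have := card_le_card (show Y ⊆ F from fun y hy => hcon y hy)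
      omega
    have hyx : y ≠ x := fun h => disjoint_left.1 hXY hx (h ▸ hy)
    have hadj : H.Adj x y := by
      by_contra h
      exact hyF (mem_union_left _ (mem_nn.2 ⟨hyx, h⟩))
    have hyS : ∀ e ∈ S, e.2 ≠ y := fun e he h =>
      hyF (mem_union_right _ (mem_union_left _ (mem_image.2 ⟨e, he, h⟩)))
    have hxS' : ∀ e ∈ S, e.1 ≠ x := fun e he h => hxS (mem_image.2 ⟨e, he, h⟩)
    have hcross : ∀ e ∈ S, H.Adj x e.2 ∨ H.Adj e.1 y := by
      intro e he
      by_contra hcon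
      push Not at hcon
      have h3 : e.2 ∈ nn H x :=
        mem_nn.2 ⟨fun h => disjoint_left.1 hXY hx (h ▸ (h1 e he).2.1), hcon.1⟩
      refine hyF (mem_union_right _ (mem_union_right _ (mem_biUnion.2 ⟨e,
        mem_filter.2 ⟨he, h3⟩, mem_nn.2 ⟨?_, hcon.2⟩⟩)))
      exact fun h => disjoint_left.1 hXY (h1 e he).1 (h ▸ hy)
    have hxy : (x, y) ∉ S := fun h => hxS' _ h rfl
    refine ⟨insert (x, y) S, by rw [card_insert_of_notMem hxy, hc], ?_, ?_⟩
    · intro e he
      rcases mem_insert.1 he with rfl | he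
      · exact ⟨hx, hy, hadj⟩
      · exact h1 e he
    · intro e he e' he' hne
      rcases mem_insert.1 he with rfl | he
      · rcases mem_insert.1 he' with rfl | he'
        · exact absurd rfl hne
        · exact ⟨(hxS' e' he').symm, (hyS e' he').symm, hcross e' he'⟩
      · rcases mem_insert.1 he' with rfl | he'
        · exact ⟨hxS' e he, hyS e he, (hcross e he).symm⟩
        · exact h2 e he e' he' hne

end Pool.Agent.AS52.Gr76
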